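import Pool.Agent.Lib.MP_731b42_co.Sphere

/-!
# A shortest-path embedding is sinkable if and only if it is floatable
-/

namespace Pool.Agent.Results.MP_731b42_co.SinkIffFloat

open Pool.Agent.Lib.MP_731b42_co

/-- For every simple graph `G` on `n ≥ 4` vertices (in particular for every maximal planar one)
and every generic shortest-path embedding `P` of `G` in the sphere: `P` is sinkable if and only if
it is floatable. Moreover the final embedding of the morph can be required to be generic without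
changing either notion. -/
theorem result {n : ℕ} (hn : 4 ≤ n) (G : SimpleGraph (Fin n)) (P : Fin n → E3)
    (hP : IsShortestPathEmbedding G P) (hgen : IsGeneric P) :
    (Sinkable G P ↔ Floatable G P) ∧ (Sinkable G P ↔ GenericallySinkable G P) ∧
      (Floatable G P ↔ GenericallyFloatable G P) := by
  have hdir := generic_dir hn hP hgen
  have hmain := main hn hP hgen
  -- sinkable
  have s1 : Sinkable G P → ∃ z, InCone (dat G (dirs P)) (hts P) z ∧ ∀ v, 0 < (-1 : ℝ) * z v := by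
    rintro ⟨Q, Γ, hΓ, hQ⟩
    exact cone_of_morph hn hP hgen ⟨Q, Γ, hΓ, fun v => by linarith [hQ v]⟩
  have s2 : (∃ z, InCone (dat G (dirs P)) (hts P) z ∧ ∀ v, 0 < (-1 : ℝ) * z v) →
      GenericallySinkable G P := by
    intro h
    obtain ⟨z, hz, hs, hg⟩ := generic_point hn hP hgen h
    obtain ⟨Γ, hΓ⟩ := morph_of_cone hn hP hgen hz
    exact ⟨_, Γ, hΓ, hg, fun v => by have := place_sign hdir hs v; linarith⟩
  have s3 : GenericallySinkable G P → Sinkable G P := by
    rintro ⟨Q, Γ, hΓ, -, hQ⟩; exact ⟨Q, Γ, hΓ, hQ⟩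
  -- floatable
  have f1 : Floatable G P → ∃ z, InCone (dat G (dirs P)) (hts P) z ∧ ∀ v, 0 < (1 : ℝ) * z v := by
    rintro ⟨Q, Γ, hΓ, hQ⟩
    exact cone_of_morph hn hP hgen ⟨Q, Γ, hΓ, fun v => by linarith [hQ v]⟩
  have f2 : (∃ z, InCone (dat G (dirs P)) (hts P) z ∧ ∀ v, 0 < (1 : ℝ) * z v) →
      GenericallyFloatable G P := by
    intro h
    obtain ⟨z, hz, hs, hg⟩ := generic_point hn hP hgen h
    obtain ⟨Γ, hΓ⟩ := morph_of_cone hn hP hgen hz
    exact ⟨_, Γ, hΓ, hg, fun v => by have := place_sign hdir hs v; linarith⟩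
  have f3 : GenericallyFloatable G P → Floatable G P := by
    rintro ⟨Q, Γ, hΓ, -, hQ⟩; exact ⟨Q, Γ, hΓ, hQ⟩
  refine ⟨⟨fun h => f3 (f2 (hmain.1 (s1 h))), fun h => s3 (s2 (hmain.2 (f1 h)))⟩,
    ⟨fun h => s2 (s1 h), s3⟩, ⟨fun h => f2 (f1 h), f3⟩⟩

end Pool.Agent.Results.MP_731b42_co.SinkIffFloat
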